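import Pool.Agent.Run7.h425.RN.Iface

/-! # Project RN of helper425: pieces DET and BLOCK -/

set_option autoImplicit false

namespace Run7.h544.RN

open MeasureTheory Real
open scoped ENNReal
open Pool.Agent.Run7.h425.RN

/-! ## DET -/

lemma A_succ_fst (a : ℝ) (ω : ℕ → Tc) (p : T2) (n : ℕ) (v : ℝ × ℝ) :
    (A a ω p (n + 1) v).1 = g a (orb a ω p n).1 * (A a ω p n v).1 - (A a ω p n v).2 := by
  show ((J (g a (orb a ω p n).1)) (A a ω p n v)).1 = _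
  simp [J]

lemma A_succ_snd (a : ℝ) (ω : ℕ → Tc) (p : T2) (n : ℕ) (v : ℝ × ℝ) :
    (A a ω p (n + 1) v).2 = (A a ω p n v).1 := by
  show ((J (g a (orb a ω p n).1)) (A a ω p n v)).2 = _
  simp [J]

theorem t_DET : S_DET := by
  intro a K hK ω p N hN
  have hK0 : 0 < K := by linarith
  have hne : ∀ k < N, g a (orb a ω p k).1 ≠ 0 := by
    intro k hk h
    have h1 := hN k hk
    rw [h, zero_mul, abs_zero] at h1
    linarith
  refine ⟨hne, ?_⟩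
  rcases Nat.eq_zero_or_pos N with h0 | hpos
  · subst h0
    have e : A a ω p 0 = ContinuousLinearMap.id ℝ (ℝ × ℝ) := rfl
    rw [e, ContinuousLinearMap.norm_id]
    simp
  · set G : ℕ → ℝ := fun k => g a (orb a ω p (k - 1)).1 with hG
    set d : ℕ → ℝ := fun k => (A a ω p k (1, 0)).2 with hd
    have d0 : d 0 = 0 := rfl
    have d1 : ∀ n, d (n + 1) = (A a ω p n (1, 0)).1 := fun n => A_succ_snd a ω p n (1, 0)
    have dd : ∀ k, d (k + 2) = G (k + 1) * d (k + 1) - d k := by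
      intro k
      rw [show k + 2 = (k + 1) + 1 from rfl, d1 (k + 1), d1 k]
      exact A_succ_fst a ω p k (1, 0)
    have d1' : d 1 = 1 := d1 0
    have g1 : G 1 ≠ 0 := hne 0 hpos
    have gg : ∀ j, 1 ≤ j → j < N → K ≤ |G j * G (j + 1)| := by
      intro j hj hjN
      have h1 := hN j hjN
      have h2 : (orb a ω p j).2 = (orb a ω p (j - 1)).1 := by
        obtain ⟨i, rfl⟩ : ∃ i, j = i + 1 := ⟨j - 1, by omega⟩
        rfl
      rw [h2, mul_comm] at h1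
      exact h1
    have h3 := Pool.Agent.Run7.h425.SM.rec_log d0 d1' dd hK g1 gg N le_rfl
    have h4 := (Pool.Agent.Run7.h425.SM.rec_step d0 d1' dd hK g1 gg N hpos le_rfl)
    obtain ⟨b1, b2, b3⟩ := h4
    have h2K : 2 / K ≤ 1 / 2 := by
      rw [div_le_div_iff₀ hK0 (by norm_num)]
      linarith
    have hx0 : 0 < |G N * d N| := abs_pos.2 (mul_ne_zero b2 b1)
    have hdN : d (N + 1) ≠ 0 := by
      intro h
      rw [h, zero_sub, abs_neg] at b3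
      nlinarith
    have h5 : |d (N + 1)| ≤ ‖A a ω p N‖ := by
      rw [d1 N]
      have h6 : |(A a ω p N (1, 0)).1| ≤ ‖A a ω p N (1, 0)‖ := by
        rw [← Real.norm_eq_abs]
        exact norm_fst_le _
      have h7 := (A a ω p N).le_opNorm (1, 0)
      have h8 : ‖((1 : ℝ), (0 : ℝ))‖ = 1 := by simp [Prod.norm_def]
      rw [h8, mul_one] at h7
      exact h6.trans h7
    have h6 := Real.log_le_log (abs_pos.2 hdN) h5
    have h7 := (abs_le.1 h3).1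
    have e1 : ∑ k ∈ Finset.range N, log |G (k + 1)| = ∑ k ∈ Finset.range N, log |g a (orb a ω p k).1| := rfl
    have e2 : 4 / K * (N : ℝ) = 4 * N / K := by ring
    rw [e1, e2] at h7
    linarith

/-! ## BLOCK -/

lemma pw_le {y z : ℝ} (hz : 0 < z) (h : z ≤ 2 * |y|) : pw (1 / 8) y ≤ 2 * pw (1 / 8) z := by
  have hy : 0 < |y| := by linarith
  unfold pw
  rw [abs_of_pos hz, ENNReal.ofReal_rpow_of_pos hy, ENNReal.ofReal_rpow_of_pos hz,
    show (2 : ℝ≥0∞) = ENNReal.ofReal 2 by simp, ← ENNReal.ofReal_mul (by norm_num)]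
  apply ENNReal.ofReal_le_ofReal
  have h1 : |y| ^ (-(1 / 8) : ℝ) ≤ (z / 2) ^ (-(1 / 8) : ℝ) :=
    Real.rpow_le_rpow_of_nonpos (by positivity) (by linarith) (by norm_num)
  have h2 : (z / 2) ^ (-(1 / 8) : ℝ) = (2 : ℝ) ^ (1 / 8 : ℝ) * z ^ (-(1 / 8) : ℝ) := by
    rw [Real.div_rpow hz.le (by norm_num), Real.rpow_neg (by norm_num : (0 : ℝ) ≤ 2), div_inv_eq_mul, mul_comm]
  have h3 : (2 : ℝ) ^ (1 / 8 : ℝ) ≤ 2 := by
    calc (2 : ℝ) ^ (1 / 8 : ℝ) ≤ (2 : ℝ) ^ (1 : ℝ) :=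
          Real.rpow_le_rpow_of_exponent_le (by norm_num) (by norm_num)
      _ = 2 := Real.rpow_one 2
  have h4 : 0 ≤ z ^ (-(1 / 8) : ℝ) := by positivity
  rw [h2] at h1
  nlinarith

lemma pw_anti {y z : ℝ} (h : |y| ≤ |z|) : pw (1 / 8) z ≤ pw (1 / 8) y := by
  unfold pw
  rw [ENNReal.rpow_neg, ENNReal.rpow_neg, ENNReal.inv_le_inv]
  exact ENNReal.rpow_le_rpow (ENNReal.ofReal_le_ofReal h) (by norm_num)

lemma ex_col (B : L2) : ∃ v : ℝ × ℝ, ‖v‖ = 1 ∧ ‖B‖ ≤ 2 * ‖B v‖ := by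
  have h1 : ‖B‖ ≤ ‖B (1, 0)‖ + ‖B (0, 1)‖ := by
    apply ContinuousLinearMap.opNorm_le_bound _ (by positivity)
    rintro ⟨s, t⟩
    have e : ((s, t) : ℝ × ℝ) = s • ((1, 0) : ℝ × ℝ) + t • ((0, 1) : ℝ × ℝ) := by simp
    have hs : |s| ≤ ‖((s, t) : ℝ × ℝ)‖ := by
      rw [Prod.norm_def]; exact le_max_left _ _
    have ht : |t| ≤ ‖((s, t) : ℝ × ℝ)‖ := by
      rw [Prod.norm_def]; exact le_max_right _ _
    have h2 : ‖B ((s, t) : ℝ × ℝ)‖ ≤ |s| * ‖B (1, 0)‖ + |t| * ‖B (0, 1)‖ := by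
      conv_lhs => rw [e, map_add, map_smul, map_smul]
      refine (norm_add_le _ _).trans ?_
      rw [norm_smul, norm_smul, Real.norm_eq_abs, Real.norm_eq_abs]
    have h3 := mul_le_mul_of_nonneg_right hs (norm_nonneg (B (1, 0)))
    have h4 := mul_le_mul_of_nonneg_right ht (norm_nonneg (B (0, 1)))
    rw [add_mul]
    linarith
  rcases le_total ‖B (0, 1)‖ ‖B (1, 0)‖ with h | h
  · exact ⟨(1, 0), by simp [Prod.norm_def], by linarith⟩
  · exact ⟨(0, 1), by simp [Prod.norm_def], by linarith⟩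

lemma ex_row (C : L2) : ∃ ρ : ℝ × ℝ, ‖C‖ ≤ 2 * ‖ρ‖ ∧ ∀ z : ℝ × ℝ, |ρ.1 * z.1 + ρ.2 * z.2| ≤ ‖C z‖ := by
  have e : ∀ z : ℝ × ℝ, C z = z.1 • C (1, 0) + z.2 • C (0, 1) := by
    intro z
    have e1 : z = z.1 • ((1, 0) : ℝ × ℝ) + z.2 • ((0, 1) : ℝ × ℝ) := by ext <;> simp
    conv_lhs => rw [e1, map_add, map_smul, map_smul]
  set ρ : ℝ × ℝ := ((C (1, 0)).1, (C (0, 1)).1) with hρ
  set ρ' : ℝ × ℝ := ((C (1, 0)).2, (C (0, 1)).2) with hρ'
  have e1 : ∀ z : ℝ × ℝ, (C z).1 = ρ.1 * z.1 + ρ.2 * z.2 := by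
    intro z
    rw [e z]
    simp [hρ]
    ring
  have e2 : ∀ z : ℝ × ℝ, (C z).2 = ρ'.1 * z.1 + ρ'.2 * z.2 := by
    intro z
    rw [e z]
    simp [hρ']
    ring
  have key : ∀ (r z : ℝ × ℝ), |r.1 * z.1 + r.2 * z.2| ≤ 2 * ‖r‖ * ‖z‖ := by
    intro r z
    have h1 : |r.1| ≤ ‖r‖ := norm_fst_le r
    have h2 : |r.2| ≤ ‖r‖ := norm_snd_le r
    have h3 : |z.1| ≤ ‖z‖ := norm_fst_le z
    have h4 : |z.2| ≤ ‖z‖ := norm_snd_le z
    refine (abs_add_le _ _).trans ?_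
    rw [abs_mul, abs_mul]
    have h5 := mul_le_mul h1 h3 (abs_nonneg _) (norm_nonneg _)
    have h6 := mul_le_mul h2 h4 (abs_nonneg _) (norm_nonneg _)
    linarith
  have h1 : ‖C‖ ≤ 2 * max ‖ρ‖ ‖ρ'‖ := by
    apply ContinuousLinearMap.opNorm_le_bound _ (by positivity)
    intro z
    have h2 := key ρ z
    have h3 := key ρ' z
    rw [Prod.norm_def (C z), Real.norm_eq_abs, Real.norm_eq_abs, e1, e2]
    apply max_le
    · refine h2.trans ?_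
      apply mul_le_mul_of_nonneg_right _ (norm_nonneg _)
      linarith [le_max_left ‖ρ‖ ‖ρ'‖]
    · refine h3.trans ?_
      apply mul_le_mul_of_nonneg_right _ (norm_nonneg _)
      linarith [le_max_right ‖ρ‖ ‖ρ'‖]
  rcases le_total ‖ρ'‖ ‖ρ‖ with h | h
  · refine ⟨ρ, by rwa [max_eq_left h] at h1, fun z => ?_⟩
    rw [← e1]
    exact norm_fst_le (C z)
  · refine ⟨ρ', by rwa [max_eq_right h] at h1, fun z => ?_⟩
    rw [← e2]
    exact norm_snd_le (C z)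

theorem t_BLOCK (hM : S_MATR) : S_BLOCK := by
  intro a ha C B hC hB
  have hC0 : 0 < ‖C‖ := norm_pos_iff.2 hC
  have hB0 : 0 < ‖B‖ := norm_pos_iff.2 hB
  obtain ⟨v, hv, hBv⟩ := ex_col B
  obtain ⟨ρ, hρ, hz⟩ := ex_row C
  set u := B v with hu
  have hρ0 : ρ ≠ 0 := by
    intro h
    rw [h, norm_zero] at hρ
    linarith
  have hu0 : u ≠ 0 := by
    intro h
    rw [h, norm_zero] at hBv
    linarith
  have h1 := hM a ha ρ u hρ0 hu0
  have h2 : ∫⁻ x₁ : Tc, ∫⁻ x₂ : Tc, pw (1 / 8) ‖((C.comp (J (g a x₂))).comp (J (g a x₁))).comp B‖ ≤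
      ∫⁻ x₁ : Tc, ∫⁻ x₂ : Tc, pw (1 / 8) (ρ.1 * (g a x₂ * (g a x₁ * u.1 - u.2) - u.1) +
        ρ.2 * (g a x₁ * u.1 - u.2)) := by
    apply lintegral_mono
    intro x₁
    apply lintegral_mono
    intro x₂
    apply pw_anti
    rw [abs_of_nonneg (norm_nonneg _)]
    have h3 := (((C.comp (J (g a x₂))).comp (J (g a x₁))).comp B).le_opNorm v
    rw [hv, mul_one] at h3
    refine le_trans ?_ h3
    have h4 := hz ((J (g a x₂)) ((J (g a x₁)) u))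
    have e : (J (g a x₂)) ((J (g a x₁)) u) = (g a x₂ * (g a x₁ * u.1 - u.2) - u.1, g a x₁ * u.1 - u.2) := by
      simp [J]
    have e2 : (((C.comp (J (g a x₂))).comp (J (g a x₁))).comp B) v = C ((J (g a x₂)) ((J (g a x₁)) u)) := rfl
    rw [e2]
    rw [e] at h4 ⊢
    exact h4
  refine (h2.trans h1).trans ?_
  have h3 : pw (1 / 8) ‖ρ‖ ≤ 2 * pw (1 / 8) ‖C‖ := by
    apply pw_le hC0
    rwa [abs_of_nonneg (norm_nonneg _)]
  have h4 : pw (1 / 8) ‖u‖ ≤ 2 * pw (1 / 8) ‖B‖ := by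
    apply pw_le hB0
    rwa [abs_of_nonneg (norm_nonneg _)]
  calc ENNReal.ofReal (128 * |a|) * (pw (1 / 8) ‖ρ‖ * pw (1 / 8) ‖u‖) ≤
        ENNReal.ofReal (128 * |a|) * ((2 * pw (1 / 8) ‖C‖) * (2 * pw (1 / 8) ‖B‖)) := by gcongr
    _ = (ENNReal.ofReal (128 * |a|) * ENNReal.ofReal 4) * (pw (1 / 8) ‖C‖ * pw (1 / 8) ‖B‖) := by
        rw [show ENNReal.ofReal 4 = (2 : ℝ≥0∞) * 2 by
          rw [show (4 : ℝ) = 2 * 2 by norm_num, ENNReal.ofReal_mul (by norm_num)]; simp]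
        ring
    _ = _ := by
        rw [← ENNReal.ofReal_mul (by positivity), show 128 * |a| * 4 = 512 * |a| by ring]

end Run7.h544.RN
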